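import Mathlib

/-!
# The counting part of the disproof (MP_78260b)

`pos v x` is the coordinate on the segment of `v` of the chosen common point of the segments of `v`
and `x`.  The hypotheses are the conclusions of the certificates `T1` and `T2`.
-/

set_option autoImplicit false

namespace Pool.Agent.SEG16

/-- first ends of the seven inner edges of the gadget (hexagon and long diagonal) -/
def zs : Fin 7 → Fin 6 := ![0, 1, 2, 3, 4, 5, 0]

/-- second ends -/
def zt : Fin 7 → Fin 6 := ![1, 2, 3, 4, 5, 0, 3]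

/-- `o` is the other end, seen from the `i`-th inner vertex, of the edge `e` of the gadget:
`Sum.inl i` is the edge `z i, g i`, `Sum.inr j` is the edge `z (zs j), z (zt j)`; the other ends are
`Sum.inl i` for `g i` and `Sum.inr i` for `z i` -/
def inc (e : Fin 6 ⊕ Fin 7) (i : Fin 6) (o : Fin 6 ⊕ Fin 6) : Prop :=
  match e with
  | Sum.inl k => i = k ∧ o = Sum.inl k
  | Sum.inr j => (i = zs j ∧ o = Sum.inr (zt j)) ∨ (i = zt j ∧ o = Sum.inr (zs j))

instance (e : Fin 6 ⊕ Fin 7) (i : Fin 6) (o : Fin 6 ⊕ Fin 6) : Decidable (inc e i o) := by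
  unfold inc
  cases e <;> infer_instance

theorem inc_inj : ∀ (e e' : Fin 6 ⊕ Fin 7) (i : Fin 6) (o : Fin 6 ⊕ Fin 6),
    inc e i o → inc e' i o → e = e' := by
  decide

/-- the neighbours of the `i`-th inner vertex -/
def nbz (i : Fin 6) (o : Fin 6 ⊕ Fin 6) : Prop := ∃ e, inc e i o

instance (i : Fin 6) (o : Fin 6 ⊕ Fin 6) : Decidable (nbz i o) := by
  unfold nbz
  infer_instance

/-- **the gadget**: six guests cannot all be seen between connectors -/
theorem gadget {V : Type*} (pos : V → V → ℝ) (con : V → V → Prop) (g z : Fin 6 → V)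
    (hg : ∀ i n n', con (z i) n → con (z i) n' →
      ¬(pos (z i) n ≤ pos (z i) (g i) ∧ pos (z i) (g i) ≤ pos (z i) n'))
    (hz : ∀ j : Fin 7, ∀ n n' m m', con (z (zs j)) n → con (z (zs j)) n' →
      con (z (zt j)) m → con (z (zt j)) m' →
      ¬(pos (z (zs j)) n ≤ pos (z (zs j)) (z (zt j)) ∧
          pos (z (zs j)) (z (zt j)) ≤ pos (z (zs j)) n' ∧
        pos (z (zt j)) m ≤ pos (z (zt j)) (z (zs j)) ∧
          pos (z (zt j)) (z (zs j)) ≤ pos (z (zt j)) m'))
    (hA : ∀ i o o', nbz i o → nbz i o' → o ≠ o' →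
      ¬((∀ n, con (z i) n → pos (z i) n < pos (z i) (Sum.elim g z o)) ∧
          (∀ n, con (z i) n → pos (z i) n < pos (z i) (Sum.elim g z o'))) ∧
      ¬((∀ n, con (z i) n → pos (z i) (Sum.elim g z o) < pos (z i) n) ∧
          (∀ n, con (z i) n → pos (z i) (Sum.elim g z o') < pos (z i) n))) : False := by
  classical
  -- `Ext i s x`: `x` is beyond all connectors of `z i` on the side `s`
  set Ext : Fin 6 → Bool → V → Prop := fun i s x =>
    if s then (∀ n, con (z i) n → pos (z i) n < pos (z i) x)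
    else (∀ n, con (z i) n → pos (z i) x < pos (z i) n) with hExt
  have dich : ∀ i x, (∀ n n', con (z i) n → con (z i) n' →
      ¬(pos (z i) n ≤ pos (z i) x ∧ pos (z i) x ≤ pos (z i) n')) → ∃ s, Ext i s x := by
    intro i x h
    by_cases h1 : ∃ n, con (z i) n ∧ pos (z i) n ≤ pos (z i) x
    · obtain ⟨n, h2, h3⟩ := h1
      refine ⟨true, ?_⟩
      show ∀ n, con (z i) n → pos (z i) n < pos (z i) x
      intro n' h4
      by_contra h5
      exact h n n' h2 h4 ⟨h3, not_lt.1 h5⟩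
    · refine ⟨false, ?_⟩
      show ∀ n, con (z i) n → pos (z i) x < pos (z i) n
      intro n' h4
      by_contra h5
      exact h1 ⟨n', h4, not_lt.1 h5⟩
  have key : ∀ e : Fin 6 ⊕ Fin 7, ∃ y : Fin 6 × Bool, ∃ o, inc e y.1 o ∧
      Ext y.1 y.2 (Sum.elim g z o) := by
    rintro (k | j)
    · obtain ⟨s, hs⟩ := dich k (g k) (hg k)
      exact ⟨(k, s), Sum.inl k, ⟨rfl, rfl⟩, hs⟩
    · by_cases h : ∃ n n', con (z (zs j)) n ∧ con (z (zs j)) n' ∧
        pos (z (zs j)) n ≤ pos (z (zs j)) (z (zt j)) ∧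
          pos (z (zs j)) (z (zt j)) ≤ pos (z (zs j)) n'
      · obtain ⟨n, n', h1, h2, h3, h4⟩ := h
        obtain ⟨s, hs⟩ := dich (zt j) (z (zs j)) fun m m' h5 h6 h7 =>
          hz j n n' m m' h1 h2 h5 h6 ⟨h3, h4, h7.1, h7.2⟩
        exact ⟨(zt j, s), Sum.inr (zs j), Or.inr ⟨rfl, rfl⟩, hs⟩
      · obtain ⟨s, hs⟩ := dich (zs j) (z (zt j)) fun n n' h5 h6 h7 =>
          h ⟨n, n', h5, h6, h7.1, h7.2⟩
        exact ⟨(zs j, s), Sum.inr (zt j), Or.inl ⟨rfl, rfl⟩, hs⟩
  choose f o hf ho using key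
  obtain ⟨e, e', hne, heq⟩ := Fintype.exists_ne_map_eq_of_card_lt f (by decide)
  have h1 := hf e
  have h2 := hf e'
  have h3 := ho e
  have h4 := ho e'
  rw [← heq] at h2 h4
  have h5 : o e ≠ o e' := by
    intro h
    rw [← h] at h2
    exact hne (inc_inj _ _ _ _ h1 h2)
  have h6 := hA (f e).1 (o e) (o e') ⟨_, h1⟩ ⟨_, h2⟩ h5
  cases hb : (f e).2
  · rw [hb] at h3 h4
    exact h6.2 ⟨h3, h4⟩
  · rw [hb] at h3 h4
    exact h6.1 ⟨h3, h4⟩

/-- **the whole count**: seven mains, fifteen hyperedges `K e` with mains `main (p e)` and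
`main (q e)`, other members `M e` (a nonempty list), guests `g e i`, inner vertices `z e i` -/
theorem core {V : Type*} (pos : V → V → ℝ) (con : V → V → Prop) (main : Fin 7 → V)
    (p q : Fin 15 → Fin 7) (M : Fin 15 → List V) (g z : Fin 15 → Fin 6 → V)
    (hgM : ∀ e i, g e i ∈ M e)
    (hdeg : ∀ b : Fin 7, ∃ e, b = p e ∨ b = q e)
    (hg : ∀ e i, ∀ e1 e2 e3 e4 : Fin 15,
      e1 ≠ e → e2 ≠ e → e3 ≠ e → e4 ≠ e →
      (p e = p e1 ∨ p e = q e1) → (p e = p e2 ∨ p e = q e2) →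
      (q e = p e3 ∨ q e = q e3) → (q e = p e4 ∨ q e = q e4) →
      ∀ d1 ∈ M e1, ∀ d2 ∈ M e2, ∀ d3 ∈ M e3, ∀ d4 ∈ M e4, ∀ n n',
      con (z e i) n → con (z e i) n' →
      pos (main (p e)) d1 ≤ pos (main (p e)) (g e i) →
      pos (main (p e)) (g e i) ≤ pos (main (p e)) d2 →
      pos (main (q e)) d3 ≤ pos (main (q e)) (g e i) →
      pos (main (q e)) (g e i) ≤ pos (main (q e)) d4 →
      pos (z e i) n ≤ pos (z e i) (g e i) →
      pos (z e i) (g e i) ≤ pos (z e i) n' → False)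
    (hz : ∀ e, ∀ j : Fin 7, ∀ n n' m m', con (z e (zs j)) n → con (z e (zs j)) n' →
      con (z e (zt j)) m → con (z e (zt j)) m' →
      pos (z e (zs j)) n ≤ pos (z e (zs j)) (z e (zt j)) →
      pos (z e (zs j)) (z e (zt j)) ≤ pos (z e (zs j)) n' →
      pos (z e (zt j)) m ≤ pos (z e (zt j)) (z e (zs j)) →
      pos (z e (zt j)) (z e (zs j)) ≤ pos (z e (zt j)) m' → False)
    (hA : ∀ e i o o', nbz i o → nbz i o' → o ≠ o' →
      ¬((∀ n, con (z e i) n → pos (z e i) n < pos (z e i) (Sum.elim (g e) (z e) o)) ∧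
          (∀ n, con (z e i) n → pos (z e i) n < pos (z e i) (Sum.elim (g e) (z e) o'))) ∧
      ¬((∀ n, con (z e i) n → pos (z e i) (Sum.elim (g e) (z e) o) < pos (z e i) n) ∧
          (∀ n, con (z e i) n → pos (z e i) (Sum.elim (g e) (z e) o') < pos (z e i) n))) :
    False := by
  classical
  -- the members of all hyperedges at a main vertex
  set S : Fin 7 → Finset (Fin 15 × V) := fun b =>
    Finset.univ.biUnion fun e => if b = p e ∨ b = q e then
      ((M e).toFinset.image fun x => (e, x)) else ∅ with hS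
  have memS : ∀ b e x, (e, x) ∈ S b ↔ (b = p e ∨ b = q e) ∧ x ∈ M e := by
    intro b e x
    rw [hS]
    simp only [Finset.mem_biUnion, Finset.mem_univ, true_and]
    constructor
    · rintro ⟨e', h⟩
      by_cases hb : b = p e' ∨ b = q e'
      · rw [if_pos hb, Finset.mem_image] at h
        obtain ⟨y, h1, h2⟩ := h
        rw [Prod.mk.injEq] at h2
        obtain ⟨rfl, rfl⟩ := h2
        exact ⟨hb, List.mem_toFinset.1 h1⟩
      · rw [if_neg hb] at h
        exact absurd h (Finset.notMem_empty _)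
    · rintro ⟨h1, h2⟩
      refine ⟨e, ?_⟩
      rw [if_pos h1, Finset.mem_image]
      exact ⟨x, List.mem_toFinset.2 h2, rfl⟩
  have neS : ∀ b, (S b).Nonempty := by
    intro b
    obtain ⟨e, he⟩ := hdeg b
    exact ⟨(e, g e 0), (memS b e (g e 0)).2 ⟨he, hgM e 0⟩⟩
  have hlo : ∀ b, ∃ y ∈ S b, ∀ y' ∈ S b, pos (main b) y.2 ≤ pos (main b) y'.2 := fun b =>
    Finset.exists_min_image (S b) (fun y => pos (main b) y.2) (neS b)
  have hhi : ∀ b, ∃ y ∈ S b, ∀ y' ∈ S b, pos (main b) y'.2 ≤ pos (main b) y.2 := fun b =>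
    Finset.exists_max_image (S b) (fun y => pos (main b) y.2) (neS b)
  choose lo lo1 lo2 using hlo
  choose hi hi1 hi2 using hhi
  -- the hyperedge at an end of a main vertex
  set own : Fin 7 × Bool → Fin 15 := fun y => if y.2 then (hi y.1).1 else (lo y.1).1 with hown
  have surj : Function.Surjective own := by
    intro e
    by_contra hno
    have nlo : ∀ b, (lo b).1 ≠ e := fun b h => hno ⟨(b, false), h⟩
    have nhi : ∀ b, (hi b).1 ≠ e := fun b h => hno ⟨(b, true), h⟩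
    refine gadget pos con (g e) (z e) ?_ ?_ (hA e)
    · intro i n n' hn hn' h
      have ilo : ∀ b, (b = p (lo b).1 ∨ b = q (lo b).1) ∧ (lo b).2 ∈ M (lo b).1 := fun b =>
        (memS b _ _).1 (lo1 b)
      have ihi : ∀ b, (b = p (hi b).1 ∨ b = q (hi b).1) ∧ (hi b).2 ∈ M (hi b).1 := fun b =>
        (memS b _ _).1 (hi1 b)
      have gp : (e, g e i) ∈ S (p e) := (memS _ _ _).2 ⟨Or.inl rfl, hgM e i⟩
      have gq : (e, g e i) ∈ S (q e) := (memS _ _ _).2 ⟨Or.inr rfl, hgM e i⟩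
      exact hg e i (lo (p e)).1 (hi (p e)).1 (lo (q e)).1 (hi (q e)).1
        (nlo _) (nhi _) (nlo _) (nhi _) (ilo _).1 (ihi _).1 (ilo _).1 (ihi _).1
        _ (ilo _).2 _ (ihi _).2 _ (ilo _).2 _ (ihi _).2 n n' hn hn'
        (lo2 _ _ gp) (hi2 _ _ gp) (lo2 _ _ gq) (hi2 _ _ gq) h.1 h.2
    · intro j n n' m m' h1 h2 h3 h4 h5
      exact hz e j n n' m m' h1 h2 h3 h4 h5.1 h5.2.1 h5.2.2.1 h5.2.2.2
  have hc := Fintype.card_le_of_surjective own surj
  exact absurd hc (by decide)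

end Pool.Agent.SEG16
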