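import Pool.Agent.SEG16.Rep

/-!
# The ladder and the inner edges: the hypotheses `hg` and `hz` of the count, from `T2`
-/

set_option autoImplicit false

namespace Pool.Agent.SEG16

open Pool.Agent.SG57

namespace Rep

variable {V : Type*} {G : SimpleGraph V} (R : Rep G)

/-- the hypothesis `hz`: two neighbours cannot be both between connectors of each other -/
theorem hz_of {u v : V} (huv : G.Adj u v) {C D : Set V} (hC : R.Conn C) (hD : R.Conn D)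
    (hCD : ∀ c ∈ C, ∀ d ∈ D, Sp G c d) (hCv : ∀ c ∈ C, Sp G c v) (hDu : ∀ d ∈ D, Sp G d u)
    {n n' m m' : V} (hn : n ∈ C) (hn' : n' ∈ C) (hm : m ∈ D) (hm' : m' ∈ D)
    (an : G.Adj u n) (an' : G.Adj u n') (am : G.Adj v m) (am' : G.Adj v m')
    (h1 : R.pos u n ≤ R.pos u v) (h2 : R.pos u v ≤ R.pos u n')
    (h3 : R.pos v m ≤ R.pos v u) (h4 : R.pos v u ≤ R.pos v m') : False := by
  have h5 := R.mem_seg_of_pos an an' huv h1 h2
  have h6 := R.mem_seg_of_pos am am' huv.symm h3 h4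
  rw [R.comm v u] at h6
  exact Set.disjoint_left.1 (R.T2c hC hD hn hn' hm hm' an an' am am' hCD hCv hDu) h5 h6

/-- the step (ii): `X g a` is not on the piece of `s_g` from `X g z` to `X g b` -/
theorem step2 {a b g z : V} (ga : G.Adj g a) (gb : G.Adj g b) (gz : G.Adj g z)
    {SA SB CB : Set V} (cSA : R.Conn SA) (cSB : R.Conn SB) (cCB : R.Conn CB)
    (hAB : ∀ x ∈ SA, ∀ y ∈ SB, Sp G x y) (hAb : ∀ x ∈ SA, Sp G x b) (hBa : ∀ x ∈ SB, Sp G x a)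
    (hAg : ∀ x ∈ SA, Sp G x g)
    (hCA : ∀ x ∈ CB, ∀ y ∈ SA, Sp G x y) (hCa : ∀ x ∈ CB, Sp G x a) (hz : z ∈ CB)
    {d1 d2 d3 d4 : V} (h1 : d1 ∈ SA) (h2 : d2 ∈ SA) (h3 : d3 ∈ SB) (h4 : d4 ∈ SB) (h3' : d3 ∈ CB)
    (a1 : G.Adj a d1) (a2 : G.Adj a d2) (a3 : G.Adj b d3) (a4 : G.Adj b d4)
    (p1 : R.pos a d1 ≤ R.pos a g) (p2 : R.pos a g ≤ R.pos a d2)
    (p3 : R.pos b d3 ≤ R.pos b g) (p4 : R.pos b g ≤ R.pos b d4) :
    R.X g a ∉ segment ℝ (R.X g z) (R.X g b) := by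
  have hJa := R.mem_seg_of_pos a1 a2 ga.symm p1 p2
  have hJb := R.mem_seg_of_pos a3 a4 gb.symm p3 p4
  have hJ : Disjoint (segment ℝ (R.X a d1) (R.X a d2)) (segment ℝ (R.X b d3) (R.X b d4)) :=
    R.T2c cSA cSB h1 h2 h3 h4 a1 a2 a3 a4 hAB hAb hBa
  -- the piece of `s_b`
  have hpc : segment ℝ (R.X b d3) (R.X b g) ⊆ segment ℝ (R.X b d3) (R.X b d4) :=
    (convex_segment _ _).segment_subset (left_mem_segment ℝ _ _) hJb
  have hT : Disjoint (segment ℝ (R.X g z) (R.X g b)) (segment ℝ (R.X a d1) (R.X a d2)) := by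
    refine T2 (A := R.Un CB ∪ segment ℝ (R.X b d3) (R.X b g)) (B := R.Un SA) ?_
      (cSA d1 h1 d2 h2 _ (R.memR a1) _ (R.memR a2)) ?_ ?_ ?_
    · refine Pth.trans (Q := R.X b d3)
        (Pth.mono Set.subset_union_left (cCB z hz d3 h3' _ (R.memR gz) _ (R.memR a3))) ?_
      rw [R.comm g b]
      exact Pth.seg Set.subset_union_right
    · rw [Set.disjoint_union_left]
      refine ⟨R.Un_disj hCA, ?_⟩
      exact ((R.Un_disj1 hAb).mono_right (R.seg_sub (R.memL a3) (R.memL gb.symm))).symm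
    · rw [Set.disjoint_union_left]
      exact ⟨(R.Un_disj1 hCa).mono_right (R.seg_sub (R.memL a1) (R.memL a2)),
        (hJ.mono_right hpc).symm⟩
    · exact (R.Un_disj1 hAg).mono_right (R.seg_sub (R.memL gz) (R.memL gb))
  intro h
  rw [R.comm g a] at h
  exact Set.disjoint_left.1 hT h hJa

/-- the hypothesis `hg`: the ladder -/
theorem hg_of {a b g z : V} (ab : G.Adj a b) (ga : G.Adj g a) (gb : G.Adj g b) (gz : G.Adj g z)
    (za : Sp G z a) (zb : Sp G z b)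
    {SA SB CA CB C : Set V} (cSA : R.Conn SA) (cSB : R.Conn SB) (cCA : R.Conn CA)
    (cCB : R.Conn CB) (cC : R.Conn C)
    (hAB : ∀ x ∈ SA, ∀ y ∈ SB, Sp G x y) (hAb : ∀ x ∈ SA, Sp G x b) (hBa : ∀ x ∈ SB, Sp G x a)
    (hAg : ∀ x ∈ SA, Sp G x g) (hBg : ∀ x ∈ SB, Sp G x g)
    (hCBA : ∀ x ∈ CB, ∀ y ∈ SA, Sp G x y) (hCBa : ∀ x ∈ CB, Sp G x a) (hzB : z ∈ CB)
    (hCAB : ∀ x ∈ CA, ∀ y ∈ SB, Sp G x y) (hCAb : ∀ x ∈ CA, Sp G x b) (hzA : z ∈ CA)
    (hCg : ∀ x ∈ C, Sp G x g) (hCa : ∀ x ∈ C, Sp G x a) (hCb : ∀ x ∈ C, Sp G x b)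
    {d1 d2 d3 d4 n n' : V} (h1 : d1 ∈ SA) (h2 : d2 ∈ SA) (h3 : d3 ∈ SB) (h4 : d4 ∈ SB)
    (h1' : d1 ∈ CA) (h3' : d3 ∈ CB) (hn : n ∈ C) (hn' : n' ∈ C)
    (a1 : G.Adj a d1) (a2 : G.Adj a d2) (a3 : G.Adj b d3) (a4 : G.Adj b d4)
    (zn : G.Adj z n) (zn' : G.Adj z n')
    (p1 : R.pos a d1 ≤ R.pos a g) (p2 : R.pos a g ≤ R.pos a d2)
    (p3 : R.pos b d3 ≤ R.pos b g) (p4 : R.pos b g ≤ R.pos b d4)
    (p5 : R.pos z n ≤ R.pos z g) (p6 : R.pos z g ≤ R.pos z n') : False := by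
  have e1 := R.step2 ga gb gz cSA cSB cCB hAB hAb hBa hAg hCBA hCBa hzB h1 h2 h3 h4 h3'
    a1 a2 a3 a4 p1 p2 p3 p4
  have e2 := R.step2 gb ga gz cSB cSA cCA (fun x hx y hy => (hAB y hy x hx).symm) hBa hAb hBg
    hCAB hCAb hzA h3 h4 h1 h2 h1' a3 a4 a1 a2 p3 p4 p1 p2
  -- `X g z` is between `X g a` and `X g b`
  have e3 : R.X g z ∈ segment ℝ (R.X g a) (R.X g b) := by
    rcases le_total (R.pos g z) (R.pos g a) with k1 | k1 <;>
      rcases le_total (R.pos g z) (R.pos g b) with k2 | k2 <;>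
      rcases le_total (R.pos g a) (R.pos g b) with k3 | k3
    · exact absurd (R.mem_seg_of_pos gz gb ga k1 k3) e1
    · exact absurd (R.mem_seg_of_pos gz ga gb k2 k3) e2
    · have := R.mem_seg_of_pos gb ga gz k2 k1
      rwa [segment_symm]
    · have := R.mem_seg_of_pos gb ga gz k2 k1
      rwa [segment_symm]
    · exact R.mem_seg_of_pos ga gb gz k1 k2
    · exact R.mem_seg_of_pos ga gb gz k1 k2
    · refine absurd ?_ e2
      rw [segment_symm]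
      exact R.mem_seg_of_pos ga gz gb k3 k2
    · refine absurd ?_ e1
      rw [segment_symm]
      exact R.mem_seg_of_pos gb gz ga k3 k1
  have e4 : R.X z g ∈ segment ℝ (R.X z n) (R.X z n') := R.mem_seg_of_pos zn zn' gz.symm p5 p6
  have hT : Disjoint (segment ℝ (R.X g a) (R.X g b)) (segment ℝ (R.X z n) (R.X z n')) := by
    refine T2 (A := R.S a ∪ R.S b) (B := R.Un C) ?_
      (cC n hn n' hn' _ (R.memR zn) _ (R.memR zn')) ?_ ?_ ?_
    · refine Pth.trans (Q := R.X a b) (Pth.seg ?_) (Pth.seg ?_)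
      · exact (R.seg_sub (R.memR ga) (R.memL ab)).trans Set.subset_union_left
      · exact (R.seg_sub (R.memR ab) (R.memR gb)).trans Set.subset_union_right
    · rw [Set.disjoint_union_left]
      exact ⟨(R.Un_disj1 hCa).symm, (R.Un_disj1 hCb).symm⟩
    · rw [Set.disjoint_union_left]
      exact ⟨((R.dj za.1 za.2).symm).mono_right (R.seg_sub (R.memL zn) (R.memL zn')),
        ((R.dj zb.1 zb.2).symm).mono_right (R.seg_sub (R.memL zn) (R.memL zn'))⟩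
    · exact (R.Un_disj1 hCg).mono_right (R.seg_sub (R.memL ga) (R.memL gb))
  rw [R.comm z g] at e4
  exact Set.disjoint_left.1 hT e3 e4

end Rep

end Pool.Agent.SEG16
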