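import Pool.Agent.SG57.Tools
import Pool.Agent.SEG.Defs

/-!
# Representations by segments, connected families of strings
-/

set_option autoImplicit false

namespace Pool.Agent.SEG16

open Pool.Agent.SG57

/-! ### polygonal paths in a set -/

theorem inU_mono {U U' : Set Pt} (h : U ⊆ U') : ∀ {P : Pt} {l : List Pt}, InU U P l → InU U' P l
  | _, [], hl => h hl
  | _, Q :: l, hl => ⟨hl.1.trans h, inU_mono h (P := Q) (l := l) hl.2⟩

theorem inU_append {U : Set Pt} {m : List Pt} : ∀ {P : Pt} {l : List Pt}, InU U P l →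
    InU U (lastp P l) m → InU U P (l ++ m)
  | _, [], _, hm => hm
  | _, Q :: l, hl, hm => ⟨hl.1, inU_append (P := Q) (l := l) hl.2 hm⟩

theorem lastp_append {m : List Pt} : ∀ {P : Pt} {l : List Pt},
    lastp P (l ++ m) = lastp (lastp P l) m
  | _, [] => rfl
  | _, Q :: l => lastp_append (P := Q) (l := l)

theorem Pth.mono {U U' : Set Pt} (h : U ⊆ U') {P Q : Pt} (hP : Pth U P Q) : Pth U' P Q := by
  obtain ⟨l, h1, h2⟩ := hP
  exact ⟨l, inU_mono h h1, h2⟩

theorem Pth.trans {U : Set Pt} {P Q R : Pt} (h1 : Pth U P Q) (h2 : Pth U Q R) : Pth U P R := by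
  obtain ⟨l, hl, rfl⟩ := h1
  obtain ⟨m, hm, rfl⟩ := h2
  exact ⟨l ++ m, inU_append hl hm, lastp_append⟩

theorem Pth.refl {U : Set Pt} {P : Pt} (h : P ∈ U) : Pth U P P := ⟨[], h, rfl⟩

theorem Pth.seg {U : Set Pt} {P Q : Pt} (h : segment ℝ P Q ⊆ U) : Pth U P Q :=
  ⟨[Q], ⟨h, h (right_mem_segment ℝ _ _)⟩, rfl⟩

theorem pth_symm_aux {U : Set Pt} : ∀ {P : Pt} {l : List Pt}, InU U P l → Pth U (lastp P l) P
  | _, [], hl => Pth.refl hl
  | P, Q :: l, hl => by
    refine Pth.trans (pth_symm_aux (P := Q) (l := l) hl.2) (Pth.seg ?_)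
    rw [segment_symm]
    exact hl.1

theorem Pth.symm {U : Set Pt} {P Q : Pt} (h : Pth U P Q) : Pth U Q P := by
  obtain ⟨l, hl, rfl⟩ := h
  exact pth_symm_aux hl

/-! ### representations -/

/-- A representation of `G` by closed segments, with chosen common points `X u v` and their
coordinates `pos`. -/
structure Rep {V : Type*} (G : SimpleGraph V) where
  a : V → Pt
  b : V → Pt
  X : V → V → Pt
  pos : V → V → ℝ
  comm : ∀ u v, X u v = X v u
  mem : ∀ {u v}, G.Adj u v → X u v ∈ segment ℝ (a u) (b u)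
  hpos : ∀ {u v}, G.Adj u v → AffineMap.lineMap (a u) (b u) (pos u v) = X u v
  disj : ∀ {u v}, u ≠ v → ¬G.Adj u v → Disjoint (segment ℝ (a u) (b u)) (segment ℝ (a v) (b v))

/-- every segment graph has a representation of this kind -/
theorem exists_rep {V : Type*} {G : SimpleGraph V} (h : Pool.Agent.SEG.IsSegmentGraph G) :
    Nonempty (Rep G) := by
  classical
  obtain ⟨a, b, hab⟩ := h
  let F : Set Pt → Pt := fun A => if h : A.Nonempty then h.some else 0
  have hF : ∀ A : Set Pt, A.Nonempty → F A ∈ A := by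
    intro A hA
    show (if h : A.Nonempty then h.some else 0) ∈ A
    rw [dif_pos hA]
    exact hA.some_mem
  let X : V → V → Pt := fun u v => F (segment ℝ (a u) (b u) ∩ segment ℝ (a v) (b v))
  have hX : ∀ {u v}, G.Adj u v → X u v ∈ segment ℝ (a u) (b u) := fun {u v} huv =>
    (hF _ ((hab u v huv.ne).2 huv)).1
  have hp : ∀ u v, ∃ t : ℝ, G.Adj u v → AffineMap.lineMap (a u) (b u) t = X u v := by
    intro u v
    by_cases huv : G.Adj u v
    · have h1 := hX huv
      rw [segment_eq_image_lineMap] at h1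
      obtain ⟨t, -, ht⟩ := h1
      exact ⟨t, fun _ => ht⟩
    · exact ⟨0, fun h => absurd h huv⟩
  choose pos hpos using hp
  refine ⟨⟨a, b, X, pos, ?_, hX, fun {u v} => hpos u v, ?_⟩⟩
  · intro u v
    show F (_ ∩ _) = F (_ ∩ _)
    rw [Set.inter_comm]
  · intro u v huv hn
    rw [Set.disjoint_iff_inter_eq_empty, ← Set.not_nonempty_iff_eq_empty]
    exact fun h => hn ((hab u v huv).1 h)

namespace Rep

variable {V : Type*} {G : SimpleGraph V} (R : Rep G)

/-- the segment of `v` -/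
def S (v : V) : Set Pt := segment ℝ (R.a v) (R.b v)

theorem memL {u v : V} (h : G.Adj u v) : R.X u v ∈ R.S u := R.mem h

theorem memR {u v : V} (h : G.Adj u v) : R.X u v ∈ R.S v := by
  rw [R.comm]
  exact R.mem h.symm

theorem dj {u v : V} (h : u ≠ v) (h' : ¬G.Adj u v) : Disjoint (R.S u) (R.S v) := R.disj h h'

theorem seg_sub {v : V} {P Q : Pt} (hP : P ∈ R.S v) (hQ : Q ∈ R.S v) : segment ℝ P Q ⊆ R.S v :=
  (convex_segment (R.a v) (R.b v)).segment_subset hP hQ

/-- the points on `s_v` with coordinate in an interval -/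
theorem mem_seg_of_pos {v x y w : V} (hx : G.Adj v x) (hy : G.Adj v y) (hw : G.Adj v w)
    (h1 : R.pos v x ≤ R.pos v w) (h2 : R.pos v w ≤ R.pos v y) :
    R.X v w ∈ segment ℝ (R.X v x) (R.X v y) := by
  rw [← R.hpos hx, ← R.hpos hy, ← R.hpos hw]
  have h3 := image_segment ℝ (AffineMap.lineMap (R.a v) (R.b v) : ℝ →ᵃ[ℝ] Pt) (R.pos v x)
    (R.pos v y)
  rw [← h3]
  refine ⟨R.pos v w, ?_, rfl⟩
  rw [segment_eq_Icc (h1.trans h2)]
  exact ⟨h1, h2⟩

/-- the union of the segments of a set of vertices -/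
def Un (C : Set V) : Set Pt := {P | ∃ v ∈ C, P ∈ R.S v}

theorem sub_Un {C : Set V} {v : V} (h : v ∈ C) : R.S v ⊆ R.Un C := fun _ hP => ⟨v, h, hP⟩

theorem Un_mono {C D : Set V} (h : C ⊆ D) : R.Un C ⊆ R.Un D := fun _ ⟨v, hv, hP⟩ => ⟨v, h hv, hP⟩

/-- all points of the union are joined in it by polygonal paths -/
def Conn (C : Set V) : Prop :=
  ∀ x ∈ C, ∀ y ∈ C, ∀ P ∈ R.S x, ∀ Q ∈ R.S y, Pth (R.Un C) P Q

end Rep

/-- `u` and `v` are different and not adjacent -/
def Sp {V : Type*} (G : SimpleGraph V) (u v : V) : Prop := u ≠ v ∧ ¬G.Adj u v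

theorem Sp.symm {V : Type*} {G : SimpleGraph V} {u v : V} (h : Sp G u v) : Sp G v u :=
  ⟨h.1.symm, fun h' => h.2 h'.symm⟩

/-- a list of vertices in which every vertex but the last is adjacent to a later one -/
def LOk {V : Type*} (G : SimpleGraph V) : List V → Prop
  | [] => True
  | v :: l => (l = [] ∨ ∃ u ∈ l, G.Adj v u) ∧ LOk G l

namespace Rep

variable {V : Type*} {G : SimpleGraph V} (R : Rep G)

theorem conn_of_list : ∀ l : List V, LOk G l → R.Conn {v | v ∈ l}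
  | [], _ => fun x hx => absurd hx (List.not_mem_nil)
  | v :: l, h => by
    have ih := conn_of_list l h.2
    have hsub : {w | w ∈ l} ⊆ {w | w ∈ v :: l} := fun w hw => List.mem_cons_of_mem _ hw
    have hv : v ∈ {w | w ∈ v :: l} := List.mem_cons_self
    have hvv : ∀ P ∈ R.S v, ∀ Q ∈ R.S v, Pth (R.Un {w | w ∈ v :: l}) P Q := fun P hP Q hQ =>
      Pth.seg ((R.seg_sub hP hQ).trans (R.sub_Un hv))
    have hvl : ∀ y ∈ l, ∀ P ∈ R.S v, ∀ Q ∈ R.S y, Pth (R.Un {w | w ∈ v :: l}) P Q := by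
      intro y hy P hP Q hQ
      rcases h.1 with h0 | ⟨u, hu, huv⟩
      · rw [h0] at hy
        exact absurd hy (List.not_mem_nil)
      · exact Pth.trans (hvv P hP _ (R.memL huv))
          (Pth.mono (R.Un_mono hsub) (ih u hu y hy _ (R.memR huv) Q hQ))
    intro x hx y hy P hP Q hQ
    rcases List.mem_cons.1 hx with rfl | hx' <;> rcases List.mem_cons.1 hy with rfl | hy'
    · exact hvv P hP Q hQ
    · exact hvl y hy' P hP Q hQ
    · exact Pth.symm (hvl x hx' Q hQ P hP)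
    · exact Pth.mono (R.Un_mono hsub) (ih x hx' y hy' P hP Q hQ)

theorem Un_disj {C D : Set V} (h : ∀ x ∈ C, ∀ y ∈ D, Sp G x y) : Disjoint (R.Un C) (R.Un D) := by
  rw [Set.disjoint_left]
  rintro P ⟨x, hx, hP⟩ ⟨y, hy, hQ⟩
  exact Set.disjoint_left.1 (R.dj (h x hx y hy).1 (h x hx y hy).2) hP hQ

theorem Un_disj1 {C : Set V} {v : V} (h : ∀ x ∈ C, Sp G x v) : Disjoint (R.Un C) (R.S v) := by
  rw [Set.disjoint_left]
  rintro P ⟨x, hx, hP⟩ hQ
  exact Set.disjoint_left.1 (R.dj (h x hx).1 (h x hx).2) hP hQ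

/-- **T2 for connected sets of vertices** -/
theorem T2c {C D : Set V} {u v x x' y y' : V} (hC : R.Conn C) (hD : R.Conn D)
    (hx : x ∈ C) (hx' : x' ∈ C) (hy : y ∈ D) (hy' : y' ∈ D)
    (ux : G.Adj u x) (ux' : G.Adj u x') (vy : G.Adj v y) (vy' : G.Adj v y')
    (hCD : ∀ c ∈ C, ∀ d ∈ D, Sp G c d) (hCv : ∀ c ∈ C, Sp G c v) (hDu : ∀ d ∈ D, Sp G d u) :
    Disjoint (segment ℝ (R.X u x) (R.X u x')) (segment ℝ (R.X v y) (R.X v y')) := by
  refine T2 (hC x hx x' hx' _ (R.memR ux) _ (R.memR ux'))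
    (hD y hy y' hy' _ (R.memR vy) _ (R.memR vy')) (R.Un_disj hCD) ?_ ?_
  · exact (R.Un_disj1 hCv).mono_right (R.seg_sub (R.memL vy) (R.memL vy'))
  · exact (R.Un_disj1 hDu).mono_right (R.seg_sub (R.memL ux) (R.memL ux'))

end Rep

end Pool.Agent.SEG16
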